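import Pool.Agent.Helper48.AED.Spec

/-! MP_8e9e20_co, part BIP of the swarm of helper48. -/

open Finset Matrix
open Pool.AED48

namespace Pool.Agent.Helper83.AED.BIP

theorem main : S_BIP := by
  intro n d A μ U t a₀ a₁ hG hS ht h0 h1 hoth
  have hne : a₀ ≠ a₁ := by
    rintro rfl
    rw [h0] at h1
    linarith
  have hsq1 : ∀ a, a ≠ a₀ → a ≠ a₁ → μ a ^ 2 = 1 := by
    intro a ha hb
    rcases hoth a ha hb with h | h <;> rw [h] <;> norm_num
  have hcu1 : ∀ a, a ≠ a₀ → a ≠ a₁ → μ a ^ 3 = μ a := by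
    intro a ha hb
    rcases hoth a ha hb with h | h <;> rw [h] <;> norm_num
  have ht2 : 0 < t ^ 2 - 1 := by nlinarith
  have ht3 : 0 < t ^ 3 - t := by
    have := mul_pos (show (0 : ℝ) < t by linarith) ht2
    nlinarith [this]
  have hA2 : ∀ i j, ∑ k, A i k * A k j =
      (if i = j then 1 else 0) + (t ^ 2 - 1) * (U a₁ i * U a₁ j + U a₀ i * U a₀ j) := by
    intro i j
    rw [hS.sq i j, ← hS.orth' i j]
    have h : ∑ a, μ a ^ 2 * U a i * U a j - ∑ a, U a i * U a j =
        ∑ a, (μ a ^ 2 - 1) * (U a i * U a j) := by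
      rw [← Finset.sum_sub_distrib]
      exact Finset.sum_congr rfl fun a _ => by ring
    have h' : ∑ a, (μ a ^ 2 - 1) * (U a i * U a j) =
        (μ a₀ ^ 2 - 1) * (U a₀ i * U a₀ j) + (μ a₁ ^ 2 - 1) * (U a₁ i * U a₁ j) := by
      refine Finset.sum_eq_add a₀ a₁ hne ?_ (fun h => absurd (Finset.mem_univ _) h)
        (fun h => absurd (Finset.mem_univ _) h)
      intro c _ hc
      rw [hsq1 c hc.1 hc.2]
      ring
    rw [h', h0, h1] at h
    linear_combination h
  have hA3 : ∀ i j, ∑ k, ∑ l, A i k * A k l * A l j =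
      A i j + (t ^ 3 - t) * (U a₁ i * U a₁ j - U a₀ i * U a₀ j) := by
    intro i j
    rw [hS.cube i j]
    have h : ∑ a, μ a ^ 3 * U a i * U a j - ∑ a, μ a * U a i * U a j =
        ∑ a, (μ a ^ 3 - μ a) * (U a i * U a j) := by
      rw [← Finset.sum_sub_distrib]
      exact Finset.sum_congr rfl fun a _ => by ring
    have h' : ∑ a, (μ a ^ 3 - μ a) * (U a i * U a j) =
        (μ a₀ ^ 3 - μ a₀) * (U a₀ i * U a₀ j) + (μ a₁ ^ 3 - μ a₁) * (U a₁ i * U a₁ j) := by
      refine Finset.sum_eq_add a₀ a₁ hne ?_ (fun h => absurd (Finset.mem_univ _) h)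
        (fun h => absurd (Finset.mem_univ _) h)
      intro c _ hc
      rw [hcu1 c hc.1 hc.2]
      ring
    rw [h', h0, h1, ← hS.eq i j] at h
    linear_combination h
  have hsq : ∀ i, U a₀ i ^ 2 = U a₁ i ^ 2 := by
    intro i
    have h : ∑ k, ∑ l, A i k * A k l * A l i = 0 :=
      Finset.sum_eq_zero fun k _ => Finset.sum_eq_zero fun l _ => hG.tri i k l
    rw [hA3 i i, hG.diag i] at h
    have h2 : (t ^ 3 - t) * (U a₁ i * U a₁ i - U a₀ i * U a₀ i) = 0 := by linarith
    rcases mul_eq_zero.1 h2 with h3 | h3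
    · exact absurd h3 ht3.ne'
    · linarith [h3, sq (U a₀ i), sq (U a₁ i)]
  refine ⟨hsq, ?_, ?_⟩
  · intro i hi
    have hi0 : U a₀ i = 0 := by
      have := hsq i
      rw [hi] at this
      simpa using this
    have hrow : ∀ j, ∑ k, A i k * A k j = if i = j then 1 else 0 := by
      intro j
      rw [hA2 i j, hi, hi0]
      ring
    have hk : ∃ k, A i k ≠ 0 := by
      by_contra hcon
      push Not at hcon
      have h := hrow i
      rw [Finset.sum_eq_zero (fun k _ => by rw [hcon k, zero_mul])] at h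
      simp at h
    obtain ⟨k, hk⟩ := hk
    have hkj : ∀ j, j ≠ i → A k j = 0 := by
      intro j hj
      have h := hrow j
      rw [if_neg (fun h => hj h.symm)] at h
      have h2 := (Finset.sum_eq_zero_iff_of_nonneg
        (fun k _ => mul_nonneg (hG.nonneg i k) (hG.nonneg k j))).1 h k (Finset.mem_univ _)
      rcases mul_eq_zero.1 h2 with h3 | h3
      · exact absurd h3 hk
      · exact h3
    have hkk : ∑ j, A k j * A j k = A k i * A i k :=
      Finset.sum_eq_single i (fun j _ hj => by rw [hkj j hj, zero_mul])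
        (fun h => absurd (Finset.mem_univ _) h)
    rw [hA2 k k, if_pos rfl, hG.symm k i] at hkk
    have h4 : 0 ≤ (t ^ 2 - 1) * (U a₁ k * U a₁ k + U a₀ k * U a₀ k) :=
      mul_nonneg ht2.le (add_nonneg (mul_self_nonneg _) (mul_self_nonneg _))
    have h5 := hG.lt_one i k
    have h6 := hG.nonneg i k
    nlinarith [mul_nonneg h6 (sub_nonneg.2 h5.le)]
  · intro i j hij
    have hj : 0 < U a₁ j ^ 2 := by
      refine lt_of_le_of_ne (sq_nonneg _) fun h => ?_
      have : U a₁ j = 0 := by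
        have h' : U a₁ j ^ 2 = 0 := h.symm
        simpa using h'
      rw [this] at hij
      simp at hij
    have hprod : U a₁ i * U a₁ j = U a₀ i * U a₀ j := by
      have h1' : (U a₁ i * U a₁ j - U a₀ i * U a₀ j) * (U a₁ i * U a₁ j + U a₀ i * U a₀ j) = 0 := by
        have e1 := hsq i
        have e2 := hsq j
        have : (U a₁ i * U a₁ j - U a₀ i * U a₀ j) * (U a₁ i * U a₁ j + U a₀ i * U a₀ j) =
            U a₁ i ^ 2 * U a₁ j ^ 2 - U a₀ i ^ 2 * U a₀ j ^ 2 := by ring
        rw [this, e1, e2]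
        ring
      rcases mul_eq_zero.1 h1' with h | h
      · linarith
      · exfalso
        have h2' : U a₁ i * U a₁ j = - (U a₀ i * U a₀ j) := by linarith
        have h3' : (U a₀ i * U a₁ i) * (U a₀ j * U a₁ j) = - (U a₀ i * U a₀ j) ^ 2 := by
          calc (U a₀ i * U a₁ i) * (U a₀ j * U a₁ j)
              = (U a₁ i * U a₁ j) * (U a₀ i * U a₀ j) := by ring
            _ = - (U a₀ i * U a₀ j) ^ 2 := by rw [h2']; ring
        have := sq_nonneg (U a₀ i * U a₀ j)
        linarith
    have h3 : ∑ k, ∑ l, A i k * A k l * A l j = A i j := by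
      rw [hA3 i j, hprod]
      ring
    have h4 : ∑ l, A i j * A j l * A l j ≤ ∑ k, ∑ l, A i k * A k l * A l j :=
      Finset.single_le_sum (f := fun k => ∑ l, A i k * A k l * A l j)
        (fun k _ => Finset.sum_nonneg fun l _ =>
          mul_nonneg (mul_nonneg (hG.nonneg _ _) (hG.nonneg _ _)) (hG.nonneg _ _))
        (Finset.mem_univ j)
    have h5 : ∑ l, A i j * A j l * A l j = A i j * ∑ l, A j l * A l j := by
      rw [Finset.mul_sum]
      exact Finset.sum_congr rfl fun l _ => by ring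
    rw [h5, h3, hA2 j j, if_pos rfl] at h4
    have h6 : 0 < (t ^ 2 - 1) * (U a₁ j * U a₁ j + U a₀ j * U a₀ j) := by
      refine mul_pos ht2 ?_
      have := mul_self_nonneg (U a₀ j)
      have e : U a₁ j * U a₁ j = U a₁ j ^ 2 := (sq _).symm
      linarith
    have h7 := hG.nonneg i j
    have h8 : A i j * ((t ^ 2 - 1) * (U a₁ j * U a₁ j + U a₀ j * U a₀ j)) ≤ 0 := by
      linarith [h4]
    by_contra hcon
    have h9 : 0 < A i j := lt_of_le_of_ne h7 (Ne.symm hcon)
    have := mul_pos h9 h6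
    linarith

end Pool.Agent.Helper83.AED.BIP
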